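import Pool.Agent.L7h66.UA.Stm
import Pool.Agent.L7h73.UN.Perf

set_option autoImplicit false

/-!
# Project UA of helper66 and helper71, part ENU: continuous enumerations
-/

namespace Pool.Agent.L7h77.UA

open Set Filter Function Pool.Agent.L7h66.UA
open Pool.Agent.L7h73.UN (nth_congr open_agree)

open Classical in
theorem s_ENU : S_ENU := by
  intro W _ A hA1 hA3
  have : Infinite W := Set.infinite_univ_iff.1 ((hA3 fun _ => false).mono (Set.subset_univ _))
  obtain ⟨e⟩ : Nonempty (ℕ ≃ W) := nonempty_equiv_of_countable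
  set P : (ℕ → Bool) → ℕ → Prop := fun c n => e n ∈ A c with hP
  have hPc : ∀ n, IsClopen {c | P c n} := fun n => hA1 (e n)
  have hPi : ∀ c, (Set.ofPred (P c)).Infinite := by
    intro c
    have h1 : Set.ofPred (P c) = e ⁻¹' (A c) := rfl
    rw [h1]
    exact (hA3 c).preimage (by rw [e.range_eq_univ]; exact Set.subset_univ _)
  refine ⟨fun c m => e (Nat.nth (P c) m), fun c => ?_, fun c => ?_, fun m => ?_⟩
  · exact e.injective.comp (Nat.nth_injective (hPi c))
  · ext w
    constructor
    · rintro ⟨m, rfl⟩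
      exact Nat.nth_mem_of_infinite (hPi c) m
    · intro hw
      refine ⟨Nat.count (P c) (e.symm w), ?_⟩
      show e (Nat.nth (P c) (Nat.count (P c) (e.symm w))) = w
      rw [Nat.nth_count (p := P c) (by rw [hP]; simpa using hw), Equiv.apply_symm_apply]
  · rw [IsLocallyConstant.iff_eventually_eq]
    intro c₀
    refine (open_agree hPc c₀ (Nat.nth (P c₀) m)).mono fun c hc => ?_
    show e (Nat.nth (P c) m) = e (Nat.nth (P c₀) m)
    rw [nth_congr (hPi c₀) hc]

end Pool.Agent.L7h77.UA
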