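import Pool.Agent.L7h66.UA.Stm

set_option autoImplicit false

/-!
# Project UA of helper66 and helper71, part FOU: first-order theories
-/

namespace Pool.Agent.L7h77.UA

open Set Filter Function FirstOrder FirstOrder.Language Pool.Agent.L7h66.UA
open Pool.Agent.L7h71.UN (Cl IsEU PE term_real qf_real univ_real sent_iff)
open Pool.Agent.H533R2.VO (RS RIso Dich)
open Pool.Agent.R617.VT

section

variable {L : FirstOrder.Language.{0, 0}} [L.IsRelational] {e : (Σ n, L.Relations n) → ℕ}
  (he : Injective e) {α : Type}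

/-- a term of a relational language has a value which does not depend on the structure -/
theorem term_indep {β : Type} (t : L.Term β) (_x : RS (ar e)) (w : β → ℕ) :
    ∃ b : β, ∀ y : RS (ar e), @Term.realize L ℕ (dc he y) β w t = w b := by
  cases t with
  | var b => exact ⟨b, fun y => rfl⟩
  | func f ts => exact isEmptyElim f

theorem clopen_qf {n : ℕ} {φ : L.BoundedFormula α n} (h : φ.IsQF) (v : α → ℕ) (xs : Fin n → ℕ) :
    IsClopen {y : RS (ar e) | @BoundedFormula.Realize L ℕ (dc he y) α n φ v xs} := by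
  induction h with
  | falsum =>
    have : {y : RS (ar e) | @BoundedFormula.Realize L ℕ (dc he y) α n BoundedFormula.falsum v xs} =
        ∅ := by
      ext y
      exact Iff.rfl
    rw [this]
    exact isClopen_empty
  | of_isAtomic hA =>
    cases hA with
    | equal t₁ t₂ =>
      obtain ⟨b₁, h1⟩ := term_indep he t₁ (fun _ _ => false) (Sum.elim v xs)
      obtain ⟨b₂, h2⟩ := term_indep he t₂ (fun _ _ => false) (Sum.elim v xs)
      have : {y : RS (ar e) | @BoundedFormula.Realize L ℕ (dc he y) α n (t₁.bdEqual t₂) v xs} =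
          {y | Sum.elim v xs b₁ = Sum.elim v xs b₂} := by
        ext y
        show @BoundedFormula.Realize L ℕ (dc he y) α n (t₁.bdEqual t₂) v xs ↔ _
        rw [@BoundedFormula.realize_bdEqual L ℕ (dc he y), h1, h2]
        exact Iff.rfl
      rw [this]
      by_cases h3 : Sum.elim v xs b₁ = Sum.elim v xs b₂
      · simp only [h3]
        exact isClopen_univ
      · simp only [h3]
        exact isClopen_empty
    | @rel l R ts =>
      choose b hb using fun i => term_indep he (ts i) (fun _ _ => false) (Sum.elim v xs)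
      have : {y : RS (ar e) | @BoundedFormula.Realize L ℕ (dc he y) α n (R.boundedFormula ts) v xs} =
          {y | y (e ⟨l, R⟩) (fun k => Sum.elim v xs (b (Fin.cast (ar_e he ⟨l, R⟩) k))) = true} := by
        ext y
        show @BoundedFormula.Realize L ℕ (dc he y) α n (R.boundedFormula ts) v xs ↔ _
        rw [@BoundedFormula.realize_rel L ℕ (dc he y)]
        simp only [hb]
        exact Iff.rfl
      rw [this]
      have hc : Continuous fun y : RS (ar e) =>
          y (e ⟨l, R⟩) (fun k => Sum.elim v xs (b (Fin.cast (ar_e he ⟨l, R⟩) k))) :=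
        (continuous_apply _).comp (continuous_apply _)
      exact (isClopen_discrete {true}).preimage hc
  | @imp φ₁ φ₂ _ _ ih1 ih2 =>
    have h1 := ih1.compl.union ih2
    have h2 : {y : RS (ar e) | @BoundedFormula.Realize L ℕ (dc he y) α n (φ₁.imp φ₂) v xs} =
        {y : RS (ar e) | @BoundedFormula.Realize L ℕ (dc he y) α n φ₁ v xs}ᶜ ∪
          {y : RS (ar e) | @BoundedFormula.Realize L ℕ (dc he y) α n φ₂ v xs} := by
      ext y
      simp only [mem_union, mem_compl_iff, mem_ofPred_eq]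
      rw [@BoundedFormula.realize_imp L ℕ (dc he y)]
      exact imp_iff_not_or
    rw [h2]
    exact h1

theorem closed_univ {n : ℕ} {φ : L.BoundedFormula α n} (h : φ.IsUniversal) (v : α → ℕ)
    (xs : Fin n → ℕ) :
    IsClosed {y : RS (ar e) | @BoundedFormula.Realize L ℕ (dc he y) α n φ v xs} := by
  induction h with
  | of_isQF hQF => exact (clopen_qf he hQF v xs).isClosed
  | @all n φ _ ih =>
    have h2 : {y : RS (ar e) | @BoundedFormula.Realize L ℕ (dc he y) α n φ.all v xs} =
        ⋂ b : ℕ, {y : RS (ar e) | @BoundedFormula.Realize L ℕ (dc he y) α (n + 1) φ v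
          (Fin.snoc xs b)} := by
      ext y
      simp only [mem_iInter, mem_ofPred_eq]
      exact @BoundedFormula.realize_all L ℕ (dc he y) α n φ v xs
    rw [h2]
    exact isClosed_iInter fun b => ih _

/-- exact copies over a set -/
theorem pe_copy {x y : RS (ar e)} {f : Equiv.Perm ℕ}
    (hf : ∀ (i : ℕ) (v : Fin (ar e i) → ℕ), y i v = x i (f ∘ v)) (X : Finset ℕ) :
    @PE L ℕ ℕ (dc he x) (dc he y) X f := by
  refine @PE.mk L ℕ ℕ (dc he x) (dc he y) X f f.injective.injOn fun n R v _ => ?_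
  rw [rel_dc, rel_dc, hf]
  exact Iff.rfl

theorem univ_cl {n : ℕ} {φ : L.BoundedFormula α n} (h : φ.IsUniversal) {x : RS (ar e)}
    {F : Finset ℕ} {v : α → ℕ} {xs : Fin n → ℕ} (hv : ∀ i, v i ∈ F) (hxs : ∀ i, xs i ∈ F)
    (hx : @BoundedFormula.Realize L ℕ (dc he x) α n φ v xs) :
    ∀ y ∈ Cl F x, @BoundedFormula.Realize L ℕ (dc he y) α n φ v xs := by
  intro y hy
  refine (closed_univ he h v xs).closure_subset_iff.2 ?_ hy
  rintro z ⟨f, hf1, hf2⟩
  refine @univ_real L α ℕ ℕ (dc he x) (dc he z) _ _ _ h (fun g => g = f)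
    (fun X => ⟨f, rfl, pe_copy he hf2 X⟩) v xs F hv hxs ?_
  rintro X hX g rfl _
  have e1 : f ∘ v = v := funext fun i => hf1 _ (hv i)
  have e2 : f ∘ xs = xs := funext fun i => hf1 _ (hxs i)
  rw [e1, e2]
  exact hx

theorem cl_anti {a : ℕ → ℕ} {F F' : Finset ℕ} (h : F ⊆ F') (x : RS a) : Cl F' x ⊆ Cl F x := by
  refine closure_mono ?_
  rintro y ⟨f, hf1, hf2⟩
  exact ⟨f, fun m hm => hf1 m (h hm), hf2⟩

theorem eu_cl {n : ℕ} {φ : L.BoundedFormula α n} (h : IsEU φ) {x : RS (ar e)}
    {F₀ : Finset ℕ} {v : α → ℕ} {xs : Fin n → ℕ} (hv : ∀ i, v i ∈ F₀) (hxs : ∀ i, xs i ∈ F₀)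
    (hx : @BoundedFormula.Realize L ℕ (dc he x) α n φ v xs) :
    ∃ F₁ : Finset ℕ, F₀ ⊆ F₁ ∧
      ∀ y ∈ Cl F₁ x, @BoundedFormula.Realize L ℕ (dc he y) α n φ v xs := by
  classical
  induction h generalizing F₀ with
  | of_isUniversal hU => exact ⟨F₀, subset_rfl, univ_cl he hU hv hxs hx⟩
  | @ex n φ _ ih =>
    rw [@BoundedFormula.realize_ex L ℕ (dc he x)] at hx
    obtain ⟨b, hb⟩ := hx
    obtain ⟨F₁, h1, h2⟩ := ih (F₀ := insert b F₀) (fun i => Finset.mem_insert_of_mem (hv i)) (by
      intro i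
      refine Fin.lastCases ?_ (fun j => ?_) i
      · rw [Fin.snoc_last]
        exact Finset.mem_insert_self _ _
      · rw [Fin.snoc_castSucc]
        exact Finset.mem_insert_of_mem (hxs j)) hb
    refine ⟨F₁, (Finset.subset_insert _ _).trans h1, fun y hy => ?_⟩
    rw [@BoundedFormula.realize_ex L ℕ (dc he y)]
    exact ⟨b, h2 y hy⟩

omit [L.IsRelational] in
theorem nrm_cl {x : RS (ar e)} {F : Finset ℕ} (hx : Nrm x) : ∀ y ∈ Cl F x, Nrm y := by
  have hc : IsClosed {y : RS (ar e) | Nrm y} := by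
    have h1 : {y : RS (ar e) | Nrm y} = ⋂ (i : ℕ), ⋂ (v : Fin (ar e i) → ℕ),
        {y | (¬ ∃ p, e p = i) → y i v = false} := by
      ext y
      simp only [mem_iInter, mem_ofPred_eq]
      exact ⟨fun h i v hi => h i hi v, fun h i hi v => h i v hi⟩
    rw [h1]
    refine isClosed_iInter fun i => isClosed_iInter fun v => ?_
    by_cases hi : ¬ ∃ p, e p = i
    · have h2 : {y : RS (ar e) | (¬ ∃ p, e p = i) → y i v = false} = {y | y i v = false} := by
        ext y
        exact ⟨fun h => h hi, fun h _ => h⟩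
      rw [h2]
      exact isClosed_eq ((continuous_apply v).comp (continuous_apply i)) continuous_const
    · have h2 : {y : RS (ar e) | (¬ ∃ p, e p = i) → y i v = false} = univ := by
        ext y
        exact ⟨fun _ => trivial, fun _ h => absurd h hi⟩
      rw [h2]
      exact isClosed_univ
  intro y hy
  refine hc.closure_subset_iff.2 ?_ hy
  rintro z ⟨f, -, hf2⟩ i hi v
  rw [hf2]
  exact hx i hi _

theorem theory_cl (T : L.Theory) (hfin : {φ ∈ T | ¬ φ.IsUniversal}.Finite)
    (hEU : ∀ φ ∈ T, IsEU φ) (x : RS (ar e)) (hx : @Theory.Model L ℕ (dc he x) T) :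
    ∃ F : Finset ℕ, ∀ y ∈ Cl F x, @Theory.Model L ℕ (dc he y) T := by
  classical
  have h1 : ∀ φ ∈ T, ∃ F : Finset ℕ, ∀ y ∈ Cl F x, @Sentence.Realize L ℕ (dc he y) φ := by
    intro φ hφ
    obtain ⟨F, -, h⟩ := eu_cl he (α := Empty) (hEU φ hφ) (x := x) (v := default) (xs := default)
      (F₀ := ∅) (fun i => i.elim) (fun i => i.elim0)
      ((sent_iff (dc he x) φ _ _).1 (@Theory.realize_sentence_of_mem L ℕ (dc he x) T hx φ hφ))
    exact ⟨F, fun y hy => (sent_iff (dc he y) φ _ _).2 (h y hy)⟩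
  choose! F hF using h1
  refine ⟨hfin.toFinset.biUnion F, fun y hy => ?_⟩
  refine (@Theory.model_iff L ℕ (dc he y) T).2 fun φ hφ => ?_
  by_cases hU : φ.IsUniversal
  · refine (sent_iff (dc he y) φ default default).2 (univ_cl he hU (x := x)
      (F := hfin.toFinset.biUnion F) (fun i => i.elim) (fun i => i.elim0) ?_ y hy)
    exact (sent_iff (dc he x) φ _ _).1
      (@Theory.realize_sentence_of_mem L ℕ (dc he x) T hx φ hφ)
  · refine hF φ hφ y (cl_anti ?_ x hy)
    exact Finset.subset_biUnion_of_mem F (hfin.mem_toFinset.2 ⟨hφ, hU⟩)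

end

theorem s_FOU (hALL : S_ALL) : S_FOU := by
  intro L _ _ T hfin hEU
  obtain ⟨e, he⟩ := Countable.exists_injective_nat (Σ n, L.Relations n)
  refine vaught_of he (hALL _ (Md he T) (md_meas he T) (fun x y h hx => md_iso he h hx) ?_)
  rintro x ⟨hx1, hx2⟩
  obtain ⟨F, hF⟩ := theory_cl he T hfin hEU x hx2
  exact ⟨F, fun y hy => ⟨nrm_cl hx1 y hy, hF y hy⟩⟩

end Pool.Agent.L7h77.UA
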