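import Pool.Agent.L7h66.UA.Stm
import Pool.Agent.L7h66.UN.Fin

set_option autoImplicit false

/-!
# Project UA of helper66 and helper71, part REP: countably many cellular structures
-/

namespace Pool.Agent.L7h77.UA

open Set Filter Function Pool.Agent.L7h66.UA
open Pool.Agent.L7h71.UN (Dom act CellR)
open Pool.Agent.L7h66.UN (D0 inc exists_act)
open Pool.Agent.H533R2.VO (RS)

variable {a : ℕ → ℕ} {n d m : ℕ} {sz : Fin m → ℕ}

/-- The structures whose first `n` relations are invariant after the identification of `ℕ` with the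
standard domain by `e₀`. -/
def InvR (a : ℕ → ℕ) (n : ℕ) (e₀ : ℕ ≃ Dom d m sz) : Set (RS a) :=
  {x | ∀ (σ : Fin m → Equiv.Perm ℕ) (i : ℕ), i < n → ∀ v : Fin (a i) → ℕ,
    x i (fun j => e₀.symm (act σ (e₀ (v j)))) = x i v}

/-- The codes of the reducts. -/
abbrev Cd (a : ℕ → ℕ) (n d m : ℕ) (sz : Fin m → ℕ) : Type :=
  (i : Fin n) → (Fin (a i) → D0 (a i) d m sz) → Bool

/-- The code of a structure. -/
def cod (a : ℕ → ℕ) (n : ℕ) (e₀ : ℕ ≃ Dom d m sz) (x : RS a) : Cd a n d m sz :=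
  fun i t => x i fun j => e₀.symm (inc (t j))

theorem inv_cod {e₀ : ℕ ≃ Dom d m sz} {x y : RS a} (hx : x ∈ InvR a n e₀) (hy : y ∈ InvR a n e₀)
    (h : cod a n e₀ x = cod a n e₀ y) (i : ℕ) (hi : i < n) (v : Fin (a i) → ℕ) :
    x i v = y i v := by
  obtain ⟨σ, t, ht⟩ := exists_act (r := a i) fun j => e₀ (v j)
  rw [← hx σ i hi v, ← hy σ i hi v]
  simp only [ht]
  exact congrFun (congrFun h ⟨i, hi⟩) t

theorem s_REP : S_REP := by
  classical
  intro a n
  let rep : (p : Σ (d m : ℕ), (Fin m → ℕ)) → (ℕ ≃ Dom p.1 p.2.1 p.2.2) → Cd a n p.1 p.2.1 p.2.2 → RS a :=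
    fun p e₀ φ => if h : ∃ x ∈ InvR a n e₀, cod a n e₀ x = φ then h.choose else fun _ _ => false
  let C : (Σ (d m : ℕ), (Fin m → ℕ)) → Set (RS a) := fun p =>
    if h : Nonempty (ℕ ≃ Dom p.1 p.2.1 p.2.2) then range (rep p h.some) else ∅
  refine ⟨⋃ p, C p, Set.countable_iUnion fun p => ?_, fun x hx => ?_⟩
  · by_cases h : Nonempty (ℕ ≃ Dom p.1 p.2.1 p.2.2)
    · simp only [C, dif_pos h]
      have : Finite (Cd a n p.1 p.2.1 p.2.2) := inferInstance
      exact Set.countable_range _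
    · simp only [C, dif_neg h]
      exact Set.countable_empty
  · obtain ⟨d, m, sz, e, he⟩ := hx
    have hne : Nonempty (ℕ ≃ Dom d m sz) := ⟨e⟩
    let e₀ : ℕ ≃ Dom d m sz := hne.some
    let N : RS a := fun i v => x i fun j => e.symm (e₀ (v j))
    have hN : N ∈ InvR a n e₀ := by
      intro σ i hi v
      have h1 := he σ i hi fun j => e.symm (e₀ (v j))
      simp only [Equiv.apply_symm_apply] at h1
      change x i _ = x i _
      simp only [Equiv.apply_symm_apply]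
      exact h1
    have hCp : C ⟨d, m, sz⟩ = range (rep ⟨d, m, sz⟩ e₀) := by
      simp only [C]
      exact dif_pos hne
    have hex : ∃ y ∈ InvR a n e₀, cod a n e₀ y = cod a n e₀ N := ⟨N, hN, rfl⟩
    have hy : rep ⟨d, m, sz⟩ e₀ (cod a n e₀ N) = hex.choose := dif_pos hex
    refine ⟨rep ⟨d, m, sz⟩ e₀ (cod a n e₀ N), Set.mem_iUnion.2 ⟨⟨d, m, sz⟩, ?_⟩,
      e₀.trans e.symm, fun i hi v => ?_⟩
    · rw [hCp]
      exact mem_range_self _
    · rw [hy, inv_cod hex.choose_spec.1 hN hex.choose_spec.2 i hi v]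
      rfl

end Pool.Agent.L7h77.UA
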