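import Pool.Agent.L7h66.UA.StmX
import Pool.Agent.H565R2.FO2.USec

set_option autoImplicit false

/-!
# Project UA of helper66 and helper71, part NX2: lifting from a finite reduct (finite ranges)
-/

namespace Pool.Agent.L7h77.UA

open Set Filter Function Topology Pool.Agent.L7h66.UA
open Pool.Agent.L7h71.UN (Dom act St Cellular S_NAM xt xt_cast Iso)

variable {a : ℕ → ℕ} {K : ℕ → Type}

/-- the code of the reduct to the first `n` functions -/
def phX {r n : ℕ} (h : ∀ i : Fin n, a i ≤ r) (M : XS a K ℕ) : St r (∀ i : Fin n, K i) ℕ :=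
  fun t i => M i fun j => t (Fin.castLE (h i) j)

theorem iso_phX {r n : ℕ} (h : ∀ i : Fin n, a i ≤ r) {M N : XS a K ℕ} (hMN : XIso M N) :
    Iso (phX h M) (phX h N) := by
  obtain ⟨σ, hσ⟩ := hMN
  exact ⟨σ, fun t => funext fun i => hσ i _⟩

/-- structures with values in the ranges of the functions of `M` -/
abbrev Zt (M : XS a K ℕ) : Type := ∀ i, (Fin (a i) → ℕ) → range (M i)

/-- one condition of `XLoc` -/
def XL (F : Finset ℕ) (M N : XS a K ℕ) (X : Finset ℕ) (n : ℕ) : Prop :=
  ∃ e : ℕ → ℕ, InjOn e X ∧ (∀ p ∈ F, e p = p) ∧ (∀ p ∈ X, e p ∈ F → p ∈ F) ∧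
    ∀ i, i < n → ∀ x : Fin (a i) → ℕ, (∀ j, x j ∈ X) → M i (e ∘ x) = N i x

theorem XL_congr {F : Finset ℕ} {M N N' : XS a K ℕ} {X : Finset ℕ} {n : ℕ} (h : XL F M N X n)
    (hN : ∀ i, i < n → ∀ x : Fin (a i) → ℕ, (∀ j, x j ∈ X) → N i x = N' i x) : XL F M N' X n := by
  obtain ⟨e, h1, h2, h3, h4⟩ := h
  exact ⟨e, h1, h2, h3, fun i hi x hx => (h4 i hi x hx).trans (hN i hi x hx)⟩

theorem s_NX2 (hNAM : S_NAM) : S_NX2 := by
  classical
  intro a K M F n hfin hM
  let r : ℕ := (Finset.range n).sup a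
  have hr : ∀ i : Fin n, a i ≤ r := fun i => Finset.le_sup (Finset.mem_range.2 i.2)
  rcases hNAM r (∀ i : Fin n, K i) (phX hr M) F with hc | ⟨g, g1, g2, g3⟩
  · obtain ⟨d, m, sz, e, he⟩ := hc
    refine absurd ⟨d, m, sz, e, fun σ i hi v => ?_⟩ hM
    have h1 := congrFun (he σ (xt r v)) ⟨i, hi⟩
    have hle : a i ≤ r := hr ⟨i, hi⟩
    have h2 : (fun j => xt r v (Fin.castLE hle j)) = v := xt_cast hle v
    have h3 : phX hr M (fun k => e.symm (act σ (e (xt r v k)))) ⟨i, hi⟩ =
        M i (fun j => e.symm (act σ (e (v j)))) := by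
      show M i (fun j => e.symm (act σ (e (xt r v (Fin.castLE hle j))))) = _
      congr 1
      funext j
      rw [congrFun h2 j]
    have h4 : phX hr M (xt r v) ⟨i, hi⟩ = M i v := by
      show M i (fun j => xt r v (Fin.castLE hle j)) = _
      rw [h2]
    rw [← h3, ← h4]
    exact h1
  · -- structures with values in the ranges
    have hfin' : ∀ i, Finite (range (M i)) := fun i => (hfin i).to_subtype
    let _ : ∀ i, TopologicalSpace (range (M i)) := fun i => ⊥
    have _ : ∀ i, DiscreteTopology (range (M i)) := fun i => ⟨rfl⟩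
    let vl : Zt M → XS a K ℕ := fun G i x => G i x
    -- agreement on finitely many arguments
    have hagr : ∀ (X : Finset ℕ) (l : ℕ) (G₀ : Zt M), ∀ᶠ G in 𝓝 G₀,
        ∀ i, i < l → ∀ x : Fin (a i) → ℕ, (∀ j, x j ∈ X) → G i x = G₀ i x := by
      intro X l G₀
      have h1 : ∀ᶠ G in 𝓝 G₀, ∀ (i : Fin l) (x : Fin (a i) → X),
          G i (fun j => x j) = G₀ i (fun j => x j) := by
        refine eventually_all.2 fun i => eventually_all.2 fun x => ?_
        have hcont : Continuous fun G : Zt M => G i (fun j => (x j : ℕ)) :=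
          (continuous_apply _).comp (continuous_apply _)
        exact hcont.continuousAt.eventually
          ((isOpen_discrete {G₀ i (fun j => (x j : ℕ))}).mem_nhds rfl)
      exact h1.mono fun G hG i hi x hx => hG ⟨i, hi⟩ fun j => ⟨x j, hx j⟩
    let Y : Set ((ℕ → Bool) × Zt M) := {p | XLoc F M (vl p.2) ∧ phX hr (vl p.2) = g p.1}
    have hY : IsClosed Y := by
      rw [← isOpen_compl_iff, isOpen_iff_eventually]
      rintro ⟨c, G⟩ hp
      by_cases h1 : XLoc F M (vl G)
      · have h2 : phX hr (vl G) ≠ g c := fun h2 => hp ⟨h1, h2⟩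
        obtain ⟨t, ht⟩ := Function.ne_iff.1 h2
        have h3 : ∀ᶠ p : (ℕ → Bool) × Zt M in 𝓝 (c, G), g p.1 t = g c t :=
          (continuous_fst.continuousAt (x := (c, G))).eventually
            ((IsLocallyConstant.iff_eventually_eq _).1 (g1 t) c)
        have h4 : ∀ᶠ p : (ℕ → Bool) × Zt M in 𝓝 (c, G), ∀ i, i < n → ∀ x : Fin (a i) → ℕ,
            (∀ j, x j ∈ Finset.univ.image t) → p.2 i x = G i x :=
          (continuous_snd.continuousAt (x := (c, G))).eventually (hagr (Finset.univ.image t) n G)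
        filter_upwards [h3, h4] with p hp3 hp4
        rintro ⟨-, h5⟩
        apply ht
        rw [← hp3, ← h5]
        funext i
        exact congrArg Subtype.val
          (hp4 i i.2 _ fun j => Finset.mem_image_of_mem _ (Finset.mem_univ _)).symm
      · have h2 : ∃ (X : Finset ℕ) (l : ℕ), ¬ XL F M (vl G) X l := by
          by_contra h2
          push Not at h2
          exact h1 h2
        obtain ⟨X, l, hX⟩ := h2
        have h4 : ∀ᶠ p : (ℕ → Bool) × Zt M in 𝓝 (c, G), ∀ i, i < l → ∀ x : Fin (a i) → ℕ,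
            (∀ j, x j ∈ X) → p.2 i x = G i x :=
          (continuous_snd.continuousAt (x := (c, G))).eventually (hagr X l G)
        filter_upwards [h4] with p hp4
        rintro ⟨h5, -⟩
        exact hX (XL_congr (h5 X l) fun i hi x hx => congrArg Subtype.val (hp4 i hi x hx))
    have hP0 : ∀ i, PolishSpace (range (M i)) := fun i => inferInstance
    have hP1 : PolishSpace (Zt M) := inferInstance
    have hP : PolishSpace ((ℕ → Bool) × Zt M) := {}
    have : PolishSpace Y := hY.polishSpace
    have hproj : ∀ c, ∃ y, (c, y) ∈ Y := by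
      intro c
      choose e e1 e2 e3 e4 using g2 c
      let y : Finset ℕ → Zt M := fun X i x => ⟨M i (e X ∘ x), mem_range_self _⟩
      let U : Ultrafilter (Finset ℕ) := Ultrafilter.of atTop
      have hcomp : CompactSpace (Zt M) := inferInstance
      obtain ⟨z, -, hz⟩ := isCompact_univ.ultrafilter_le_nhds (U.map y) (by simp)
      have hz' : ∀ X : Finset ℕ, ∀ l : ℕ, ∃ X' : Finset ℕ, X ⊆ X' ∧
          ∀ i, i < l → ∀ x : Fin (a i) → ℕ, (∀ j, x j ∈ X) → y X' i x = z i x := by
        intro X l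
        have h1 : ∀ᶠ X' in (U : Filter (Finset ℕ)), ∀ i, i < l → ∀ x : Fin (a i) → ℕ,
            (∀ j, x j ∈ X) → y X' i x = z i x := hz (hagr X l z)
        have h2 : ∀ᶠ X' in (U : Filter (Finset ℕ)), X ⊆ X' :=
          Ultrafilter.of_le atTop (eventually_ge_atTop X)
        obtain ⟨X', h3, h4⟩ := (h1.and h2).exists
        exact ⟨X', h4, h3⟩
      refine ⟨z, fun X l => ?_, ?_⟩
      · obtain ⟨X', hX, h5⟩ := hz' X l
        refine ⟨e X', (e1 X').mono (Finset.coe_subset.2 hX), e2 X',
          fun p hp => e3 X' p (hX hp), fun i hi x hx => ?_⟩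
        exact congrArg Subtype.val (h5 i hi x hx)
      · funext t i
        obtain ⟨X', hX, h5⟩ := hz' (Finset.univ.image t) n
        have h6 := h5 i i.2 (fun j => t (Fin.castLE (hr i) j))
          fun j => Finset.mem_image_of_mem _ (Finset.mem_univ _)
        have h7 := congrFun (e4 X' t fun k => hX (Finset.mem_image_of_mem _ (Finset.mem_univ k))) i
        rw [← h7]
        exact (congrArg Subtype.val h6).symm
    have hunc : ¬ (range fun p : Y => p.1.1).Countable := by
      have h1 : (range fun p : Y => p.1.1) = univ := by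
        rw [eq_univ_iff_forall]
        intro c
        obtain ⟨y, hy⟩ := hproj c
        exact ⟨⟨(c, y), hy⟩, rfl⟩
      rw [h1]
      intro h2
      have h3 : Countable (ℕ → Bool) := countable_univ_iff.1 h2
      have h4 := Cardinal.mk_le_aleph0_iff.2 h3
      rw [← Cardinal.power_def, Cardinal.mk_bool, Cardinal.mk_nat] at h4
      exact absurd h4 (not_le.2 (Cardinal.cantor _))
    obtain ⟨h, hh1, hh2⟩ := Pool.Agent.H565R2.FO2.perfect_aux (ι := Unit)
      (fun _ (p : Y) => p.1.1) (fun _ => continuous_fst.comp continuous_subtype_val)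
      (fun p q => p.1.1 = q.1.1) (fun p q h _ => ⟨(), h⟩) () hunc
    refine ⟨fun c => vl (h c).1.2, fun i x => ?_, fun c => ⟨vl (h c).1.2, (h c).2.1, ?_⟩,
      fun c d hcd => ?_⟩
    · have h1 : Continuous fun c => (h c).1.2 i x :=
        (continuous_apply x).comp ((continuous_apply i).comp
          (continuous_snd.comp (continuous_subtype_val.comp hh1)))
      exact ((IsLocallyConstant.iff_continuous _).2 h1).comp Subtype.val
    · exact ⟨Equiv.refl ℕ, fun i x => rfl⟩
    · by_contra hne
      refine hh2 c d hne (g3 _ _ ?_)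
      have h1 := iso_phX hr hcd
      rwa [(h c).2.2, (h d).2.2] at h1

end Pool.Agent.L7h77.UA
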