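import Pool.Agent.L7h66.UA.StmX
import Pool.Agent.L7h66.UN.Fin

set_option autoImplicit false

/-!
# Project UA of helper66 and helper71, part REX: countably many cellular structures
-/

namespace Pool.Agent.L7h77.UA

open Set Filter Function Pool.Agent.L7h66.UA
open Pool.Agent.L7h71.UN (Dom act)
open Pool.Agent.L7h66.UN (D0 inc exists_act)

variable {a : ℕ → ℕ} {K : ℕ → Type} {n d m : ℕ} {sz : Fin m → ℕ}

/-- The structures whose first `n` functions are invariant after the identification of `ℕ` with the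
standard domain by `e₀`. -/
def InvX (a : ℕ → ℕ) (K : ℕ → Type) (n : ℕ) (e₀ : ℕ ≃ Dom d m sz) : Set (XS a K ℕ) :=
  {x | ∀ (σ : Fin m → Equiv.Perm ℕ) (i : ℕ), i < n → ∀ v : Fin (a i) → ℕ,
    x i (fun j => e₀.symm (act σ (e₀ (v j)))) = x i v}

/-- The codes of the reducts. -/
abbrev CdX (a : ℕ → ℕ) {K : ℕ → Type} (Q : ∀ i, Set (K i)) (n d m : ℕ) (sz : Fin m → ℕ) : Type :=
  (i : Fin n) → (Fin (a i) → D0 (a i) d m sz) → Q i

/-- `φ` is the code of the structure. -/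
def IsCod {Q : ∀ i, Set (K i)} (e₀ : ℕ ≃ Dom d m sz) (x : XS a K ℕ) (φ : CdX a Q n d m sz) :
    Prop :=
  ∀ (i : Fin n) t, x i (fun j => e₀.symm (inc (t j))) = φ i t

theorem inv_codX {Q : ∀ i, Set (K i)} {e₀ : ℕ ≃ Dom d m sz} {x y : XS a K ℕ}
    (hx : x ∈ InvX a K n e₀) (hy : y ∈ InvX a K n e₀) {φ : CdX a Q n d m sz}
    (h : IsCod e₀ x φ) (h' : IsCod e₀ y φ) (i : ℕ) (hi : i < n) (v : Fin (a i) → ℕ) :
    x i v = y i v := by
  obtain ⟨σ, t, ht⟩ := exists_act (r := a i) fun j => e₀ (v j)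
  rw [← hx σ i hi v, ← hy σ i hi v]
  simp only [ht]
  exact (h ⟨i, hi⟩ t).trans (h' ⟨i, hi⟩ t).symm

theorem s_REX : S_REX := by
  classical
  intro a K Q hQ n
  have hQc : ∀ i, Countable (Q i) := fun i => (hQ i).to_subtype
  let C : (Σ (d m : ℕ), (Fin m → ℕ)) → Set (XS a K ℕ) := fun p =>
    if h : Nonempty (ℕ ≃ Dom p.1 p.2.1 p.2.2) then
      range (fun φ : {φ : CdX a Q n p.1 p.2.1 p.2.2 //
        ∃ x ∈ InvX a K n h.some, IsCod h.some x φ} => φ.2.choose) else ∅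
  refine ⟨⋃ p, C p, Set.countable_iUnion fun p => ?_, fun x hx hxQ => ?_⟩
  · by_cases h : Nonempty (ℕ ≃ Dom p.1 p.2.1 p.2.2)
    · simp only [C, dif_pos h]
      have : Countable (CdX a Q n p.1 p.2.1 p.2.2) := inferInstance
      exact Set.countable_range _
    · simp only [C, dif_neg h]
      exact Set.countable_empty
  · obtain ⟨d, m, sz, e, he⟩ := hx
    have hne : Nonempty (ℕ ≃ Dom d m sz) := ⟨e⟩
    let e₀ : ℕ ≃ Dom d m sz := hne.some
    let N : XS a K ℕ := fun i v => x i fun j => e.symm (e₀ (v j))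
    have hN : N ∈ InvX a K n e₀ := by
      intro σ i hi v
      have h1 := he σ i hi fun j => e.symm (e₀ (v j))
      simp only [Equiv.apply_symm_apply] at h1
      change x i _ = x i _
      simp only [Equiv.apply_symm_apply]
      exact h1
    let φ : CdX a Q n d m sz := fun i t => ⟨N i fun j => e₀.symm (inc (t j)), hxQ _ _⟩
    have hφ : IsCod e₀ N φ := fun i t => rfl
    have hex : ∃ y ∈ InvX a K n e₀, IsCod e₀ y φ := ⟨N, hN, hφ⟩
    have hCp : C ⟨d, m, sz⟩ = range (fun φ : {φ : CdX a Q n d m sz //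
        ∃ x ∈ InvX a K n e₀, IsCod e₀ x φ} => φ.2.choose) := by
      simp only [C]
      exact dif_pos hne
    refine ⟨hex.choose, Set.mem_iUnion.2 ⟨⟨d, m, sz⟩, ?_⟩, e₀.trans e.symm, fun i hi v => ?_⟩
    · rw [hCp]
      exact ⟨⟨φ, hex⟩, rfl⟩
    · rw [inv_codX hex.choose_spec.1 hN hex.choose_spec.2 hφ i hi v]
      rfl

end Pool.Agent.L7h77.UA
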