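import Pool.Agent.L7h71.UA.Stm

set_option autoImplicit false

/-!
# Project UA of helper71 and helper66, part NAMEK: finitely many named points
-/

namespace Pool.Agent.L7h77.UA

open Set Filter Function Topology Pool.Agent.L7h71.UN Pool.Agent.L7h71.UA
open Pool.Agent.H533R2.VO (RS RIso)

/-- the arities with a unary relation in front -/
abbrev ar (a : ℕ → ℕ) : ℕ → ℕ := fun i => Nat.casesOn i 1 a

/-- `x` with the point `p` named -/
def nm {a : ℕ → ℕ} (x : RS a) (p : ℕ) : RS (ar a)
  | 0 => fun v => decide (v (0 : Fin 1) = p)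
  | i + 1 => x i

/-- the structure without the first relation -/
def tl {a : ℕ → ℕ} (y : RS (ar a)) : RS a := fun i => y (i + 1)

variable {a : ℕ → ℕ}

theorem tl_nm (x : RS a) (p : ℕ) : tl (nm x p) = x := rfl

theorem nm_zero (x : RS a) (p : ℕ) (v : Fin (ar a 0) → ℕ) :
    nm x p 0 v = decide (v (0 : Fin 1) = p) := rfl

theorem cont_tl : Continuous (tl : RS (ar a) → RS a) :=
  continuous_pi fun i => continuous_apply (i + 1)

theorem riso_tl {y z : RS (ar a)} (h : RIso y z) : RIso (tl y) (tl z) := by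
  obtain ⟨σ, hσ⟩ := h
  exact ⟨σ, fun i v => hσ (i + 1) v⟩

theorem cellR_mono {I J : Set ℕ} (h : I ⊆ J) {x : RS a} (hx : CellR J x) : CellR I x := by
  obtain ⟨d, m, sz, e, he⟩ := hx
  exact ⟨d, m, sz, e, fun σ i hi v => he σ i (h hi) v⟩

theorem s_NAMEK : S_NAMEK := by
  intro hINF hNAME1 hPERFR a k
  induction k generalizing a with
  | zero =>
    intro x f hx
    have h := hINF a x hx
    have h1 : {y : RS a | ∃ g : Fin 0 → ℕ, ∀ n, RedIso n x f y g} =
        {y : RS a | ∀ n, ∃ σ : Equiv.Perm ℕ, ∀ i < n, ∀ v : Fin (a i) → ℕ, y i (σ ∘ v) = x i v} := by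
      ext y
      constructor
      · rintro ⟨g, hg⟩ n
        obtain ⟨σ, -, h2⟩ := hg n
        exact ⟨σ, h2⟩
      · intro hy
        refine ⟨Fin.elim0, fun n => ?_⟩
        obtain ⟨σ, h2⟩ := hy n
        exact ⟨σ, fun j => j.elim0, h2⟩
    rw [h1]
    exact h
  | succ k ih =>
    intro x f hx
    have hx' : ∀ n, CellR {i | i < n} (nm x (f (Fin.last k))) := by
      intro n
      refine cellR_mono (J := {i | i < n + 1}) (fun i hi => Nat.lt_succ_of_lt hi) ?_
      exact hNAME1 a x (f (Fin.last k)) n (hx n) (nm x (f (Fin.last k))) (fun v => rfl)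
        (fun i v => rfl)
    rcases ih (ar a) (nm x (f (Fin.last k))) (f ∘ Fin.castSucc) hx' with ⟨C', hC', hC2⟩ |
      ⟨g', hg1, hg2, hg3⟩
    · refine Or.inl ⟨tl '' C', hC'.image _, ?_⟩
      rintro y ⟨g, hg⟩
      obtain ⟨z', hz', hiso⟩ := hC2 (nm y (g (Fin.last k))) (by
        refine ⟨g ∘ Fin.castSucc, fun n => ?_⟩
        obtain ⟨σ, hσ1, hσ2⟩ := hg n
        refine ⟨σ, fun j => hσ1 _, fun i hi v => ?_⟩
        rcases i with _ | i
        · rw [nm_zero, nm_zero]
          refine decide_eq_decide.2 ?_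
          rw [← hσ1 (Fin.last k)]
          exact σ.injective.eq_iff
        · exact hσ2 i (Nat.lt_of_succ_lt hi) v)
      exact ⟨tl z', mem_image_of_mem _ hz', riso_tl hiso⟩
    · -- the named point of the members of the family
      have hex : ∀ c, ∃ s : ℕ, ∀ v : Fin (ar a 0) → ℕ, g' c 0 v = decide (v (0 : Fin 1) = s) := by
        intro c
        obtain ⟨g'', hg''⟩ := hg2 c
        obtain ⟨σ, -, hσ⟩ := hg'' 1
        refine ⟨σ (f (Fin.last k)), fun v => ?_⟩
        have h1 := hσ 0 Nat.one_pos (σ.symm ∘ v)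
        have h2 : (⇑σ ∘ (⇑σ.symm ∘ v)) = v := by
          funext j
          simp
        rw [h2] at h1
        rw [h1, nm_zero]
        refine decide_eq_decide.2 ?_
        show σ.symm (v (0 : Fin 1)) = _ ↔ _
        rw [Equiv.symm_apply_eq]
      choose s hs using hex
      have hsl : IsLocallyConstant s := by
        rw [IsLocallyConstant.iff_eventually_eq]
        intro c
        have h1 : Continuous fun d => g' d 0 (fun _ => s c) :=
          (continuous_apply _).comp ((continuous_apply 0).comp hg1)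
        have h2 : ∀ᶠ d in 𝓝 c, g' d 0 (fun _ => s c) = true := by
          refine h1.continuousAt.eventually ((isOpen_discrete {true}).mem_nhds ?_)
          rw [mem_singleton_iff]
          show g' c 0 (fun _ => s c) = true
          rw [hs]
          simp
        filter_upwards [h2] with d hd
        rw [hs] at hd
        exact (of_decide_eq_true hd).symm
      obtain ⟨h, hh1, hh2⟩ := hPERFR a (fun c => tl (g' c)) s (cont_tl.comp hg1) hsl (by
        intro c d e he1 he2
        refine hg3 c d ⟨e, fun i v => ?_⟩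
        rcases i with _ | i
        · rw [hs, hs]
          refine decide_eq_decide.2 ?_
          rw [← he1]
          exact e.injective.eq_iff
        · exact he2 i v)
      refine Or.inr ⟨fun c => tl (g' (h c)), cont_tl.comp (hg1.comp hh1), fun c => ?_, hh2⟩
      obtain ⟨g'', hg''⟩ := hg2 (h c)
      refine ⟨Fin.snoc (α := fun _ => ℕ) g'' (s (h c)), fun n => ?_⟩
      obtain ⟨σ, hσ1, hσ2⟩ := hg'' (n + 1)
      refine ⟨σ, fun j => ?_, fun i hi v => hσ2 (i + 1) (Nat.succ_lt_succ hi) v⟩
      refine Fin.lastCases ?_ (fun j => ?_) j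
      · rw [Fin.snoc_last]
        have h1 := hσ2 0 (Nat.succ_pos n) (fun _ => f (Fin.last k))
        rw [hs, nm_zero] at h1
        have h2 := decide_eq_decide.1 h1
        exact h2.2 rfl
      · rw [Fin.snoc_castSucc]
        exact hσ1 j

end Pool.Agent.L7h77.UA
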