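import Pool.Agent.L7h71.UA.Stm
import Pool.Agent.H566W.Ana

set_option autoImplicit false

/-!
# Project UA of helper71 and helper66, part PERFR: the perfect-set engine for `RS a`
-/

namespace Pool.Agent.L7h77.UA

open Set Filter Function Topology MeasureTheory Pool.Agent.L7h71.UA
open Pool.Agent.H533R2.VO (RS RIso)

section

variable {a : ℕ → ℕ}

theorem cont_eval : Continuous fun q : (ℕ → ℕ) × ℕ => q.1 q.2 := by
  rw [continuous_iff_continuousAt]
  rintro ⟨e, n⟩
  have h1 : ∀ᶠ q : (ℕ → ℕ) × ℕ in 𝓝 (e, n), q.2 = n :=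
    (continuous_snd (X := ℕ → ℕ) (Y := ℕ)).continuousAt.eventually
      ((isOpen_discrete ({n} : Set ℕ)).mem_nhds (mem_singleton n))
  have h2 : ContinuousAt (fun q : (ℕ → ℕ) × ℕ => q.1 n) (e, n) :=
    ((continuous_apply n).comp continuous_fst).continuousAt
  refine h2.congr ?_
  filter_upwards [h1] with q hq
  rw [hq]

/-- evaluation of a structure at the image of a tuple is continuous -/
theorem cont_app (i : ℕ) (v : Fin (a i) → ℕ) :
    Continuous fun p : RS a × (ℕ → ℕ) => p.1 i (p.2 ∘ v) := by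
  rw [continuous_iff_continuousAt]
  intro p0
  have h1 : ∀ᶠ p : RS a × (ℕ → ℕ) in 𝓝 p0, ∀ j, p.2 (v j) = p0.2 (v j) := by
    rw [eventually_all]
    intro j
    have hc : Continuous fun p : RS a × (ℕ → ℕ) => p.2 (v j) :=
      (continuous_apply (v j)).comp continuous_snd
    exact hc.continuousAt.eventually ((isOpen_discrete {p0.2 (v j)}).mem_nhds rfl)
  have h2 : ContinuousAt (fun p : RS a × (ℕ → ℕ) => p.1 i (p0.2 ∘ v)) p0 :=
    ((continuous_apply (p0.2 ∘ v)).comp ((continuous_apply i).comp continuous_fst)).continuousAt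
  refine h2.congr ?_
  filter_upwards [h1] with p hp
  have : p.2 ∘ v = p0.2 ∘ v := funext hp
  rw [this]

theorem analytic_riso (g : (ℕ → Bool) → RS a) (hg : Continuous g) :
    AnalyticSet {p : (ℕ → Bool) × (ℕ → Bool) | RIso (g p.1) (g p.2)} := by
  let C : Set (((ℕ → Bool) × (ℕ → Bool)) × ((ℕ → ℕ) × (ℕ → ℕ))) :=
    {p | (∀ n, p.2.1 (p.2.2 n) = n) ∧ (∀ n, p.2.2 (p.2.1 n) = n) ∧
      ∀ (i : ℕ) (v : Fin (a i) → ℕ), g p.1.2 i (p.2.1 ∘ v) = g p.1.1 i v}
  have hC : IsClosed C := by
    have h1 : IsClosed {p : ((ℕ → Bool) × (ℕ → Bool)) × ((ℕ → ℕ) × (ℕ → ℕ)) |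
        ∀ n, p.2.1 (p.2.2 n) = n} := by
      simp only [ofPred_forall]
      refine isClosed_iInter fun n => isClosed_eq ?_ continuous_const
      exact cont_eval.comp ((continuous_fst.comp continuous_snd).prodMk
        ((continuous_apply n).comp (continuous_snd.comp continuous_snd)))
    have h2 : IsClosed {p : ((ℕ → Bool) × (ℕ → Bool)) × ((ℕ → ℕ) × (ℕ → ℕ)) |
        ∀ n, p.2.2 (p.2.1 n) = n} := by
      simp only [ofPred_forall]
      refine isClosed_iInter fun n => isClosed_eq ?_ continuous_const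
      exact cont_eval.comp ((continuous_snd.comp continuous_snd).prodMk
        ((continuous_apply n).comp (continuous_fst.comp continuous_snd)))
    have h3 : IsClosed {p : ((ℕ → Bool) × (ℕ → Bool)) × ((ℕ → ℕ) × (ℕ → ℕ)) |
        ∀ (i : ℕ) (v : Fin (a i) → ℕ), g p.1.2 i (p.2.1 ∘ v) = g p.1.1 i v} := by
      simp only [ofPred_forall]
      refine isClosed_iInter fun i => isClosed_iInter fun v => isClosed_eq ?_ ?_
      · exact (cont_app i v).comp ((hg.comp (continuous_snd.comp continuous_fst)).prodMk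
          (continuous_fst.comp continuous_snd))
      · exact (continuous_apply v).comp ((continuous_apply i).comp
          (hg.comp (continuous_fst.comp continuous_fst)))
    exact h1.inter (h2.inter h3)
  have hP : PolishSpace (((ℕ → Bool) × (ℕ → Bool)) × (ℕ → ℕ) × (ℕ → ℕ)) := {}
  have h4 : AnalyticSet (Prod.fst '' C) := hC.analyticSet.image_of_continuous continuous_fst
  have h5 : {p : (ℕ → Bool) × (ℕ → Bool) | RIso (g p.1) (g p.2)} = Prod.fst '' C := by
    ext ⟨c, d⟩
    constructor
    · rintro ⟨e, he⟩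
      exact ⟨((c, d), (e, e.symm)), ⟨fun n => e.apply_symm_apply n,
        fun n => e.symm_apply_apply n, he⟩, rfl⟩
    · rintro ⟨⟨⟨c', d'⟩, ⟨e, e'⟩⟩, ⟨h1, h2, h3⟩, h⟩
      simp only [Prod.mk.injEq] at h
      obtain ⟨rfl, rfl⟩ := h
      exact ⟨⟨e, e', h2, h1⟩, h3⟩
  rw [h5]
  exact h4

end

theorem s_PERFR : S_PERFR := by
  intro a g s hg hs hinj
  obtain ⟨h, hh, hh2⟩ := Pool.Agent.H566W.perfect_independent
    (fun c d => RIso (g c) (g d)) (analytic_riso g hg) (fun c => by
      classical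
      let e : (ℕ → Bool) → Equiv.Perm ℕ := fun d =>
        if h : RIso (g c) (g d) then h.choose else 1
      have he : ∀ d, RIso (g c) (g d) → ∀ (i : ℕ) (v : Fin (a i) → ℕ),
          g d i (e d ∘ v) = g c i v := by
        intro d hd i v
        simp only [e, dif_pos hd]
        exact hd.choose_spec i v
      refine Set.countable_of_injective_of_countable_image (f := fun d =>
        (e d).symm (s d)) ?_ (Set.to_countable _)
      intro d hd d' hd' hdd
      simp only at hdd
      refine hinj d d' ((e d).symm.trans (e d')) ?_ (fun i v => ?_)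
      · rw [Equiv.trans_apply, hdd, Equiv.apply_symm_apply]
      · have h1 : (⇑((e d).symm.trans (e d')) ∘ v) = e d' ∘ ((e d).symm ∘ v) := rfl
        rw [h1, he d' hd', ← he d hd i ((e d).symm ∘ v)]
        congr 1
        funext j
        simp)
  refine ⟨h, hh, fun c d hcd => ?_⟩
  by_contra hne
  exact hh2 c d hne hcd

end Pool.Agent.L7h77.UA
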