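import Pool.Agent.L7h77.UA.Name1
import Pool.Agent.L7h77.UA.Perfr
import Pool.Agent.L7h77.UA.Namek

set_option autoImplicit false

/-!
# Project UA: `S_INF` implies `S_INFN`
-/

namespace Pool.Agent.L7h77.UA

open Pool.Agent.L7h71.UA

theorem s_INFN (h : S_INF) : S_INFN := s_NAMEK h s_NAME1 s_PERFR

end Pool.Agent.L7h77.UA
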