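import Pool.Agent.L7h71.UA.Stm

set_option autoImplicit false

/-!
# Project UA of helper71 and helper66, part NAME1: naming one point keeps cellularity
-/

namespace Pool.Agent.L7h77.UA

open Set Filter Function Pool.Agent.L7h71.UN Pool.Agent.L7h71.UA
open Pool.Agent.H533R2.VO (RS RIso)

theorem act_inj {d m : ℕ} {sz : Fin m → ℕ} (σ : Fin m → Equiv.Perm ℕ) :
    Injective (act σ : Dom d m sz → Dom d m sz) := by
  have h : ∀ u : Dom d m sz, act (fun i => (σ i).symm) (act σ u) = u := by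
    rintro (b | ⟨i, n, j⟩)
    · rfl
    · show (Sum.inr ⟨i, ((σ i).symm (σ i n), j)⟩ : Dom d m sz) = _
      rw [Equiv.symm_apply_apply]
  intro u u' huu
  rw [← h u, ← h u', huu]

theorem s_NAME1 : S_NAME1 := by
  classical
  intro a x p n hx x' h0 hs
  obtain ⟨d, m, sz, e, he⟩ := hx
  -- the broken cell
  let B : Fin m → Set ℕ := fun i => {n | ∃ j, e p = Sum.inr ⟨i, (n, j)⟩}
  have hB : ∀ i, (B i).Finite := by
    intro i
    refine (Set.finite_singleton (match e p with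
      | Sum.inl _ => 0
      | Sum.inr w => w.2.1)).subset ?_
    rintro n ⟨j, ha⟩
    simp only [ha, mem_singleton_iff]
  have hinf : ∀ i, Infinite {n // n ∉ B i} := fun i => (hB i).infinite_compl.to_subtype
  have hρ : ∀ i, Nonempty (ℕ ≃ {n // n ∉ B i}) := fun i => by
    have := hinf i
    exact nonempty_equiv_of_countable
  obtain ⟨ρ⟩ : Nonempty (∀ i, ℕ ≃ {n // n ∉ B i}) := ⟨fun i => (hρ i).some⟩
  -- the finite part
  let P : Set (Dom d m sz) := {w | ∀ i n j, w = Sum.inr ⟨i, (n, j)⟩ → n ∈ B i}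
  have hP : P.Finite := by
    refine ((Set.finite_range (Sum.inl : Fin d → Dom d m sz)).union (Set.finite_iUnion fun i =>
      ((hB i).prod (Set.finite_univ : (univ : Set (Fin (sz i))).Finite)).image
        fun p : ℕ × Fin (sz i) => (Sum.inr ⟨i, p⟩ : Dom d m sz))).subset ?_
    rintro w h2
    rcases w with a | ⟨i, n, j⟩
    · exact Or.inl ⟨a, rfl⟩
    · refine Or.inr (Set.mem_iUnion.2 ⟨i, (n, j), ⟨h2 i n j rfl, mem_univ j⟩, rfl⟩)
  have := hP.fintype
  let ε : P ≃ Fin (Fintype.card P) := Fintype.equivFin P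
  let g : Dom (Fintype.card P) m sz → Dom d m sz
    | Sum.inl a => (ε.symm a : Dom d m sz)
    | Sum.inr ⟨i, (n, j)⟩ => Sum.inr ⟨i, ((ρ i n : ℕ), j)⟩
  have hgi : Injective g := by
    rintro (a | ⟨i, n, j⟩) (a' | ⟨i', n', j'⟩) h
    · congr 1
      exact ε.symm.injective (Subtype.ext h)
    · have h1 : ((ε.symm a : P) : Dom d m sz) = Sum.inr ⟨i', ((ρ i' n' : ℕ), j')⟩ := h
      exact absurd ((ε.symm a).2 i' _ j' h1) (ρ i' n').2
    · have h1 : ((ε.symm a' : P) : Dom d m sz) = Sum.inr ⟨i, ((ρ i n : ℕ), j)⟩ := h.symm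
      exact absurd ((ε.symm a').2 i _ j h1) (ρ i n).2
    · have h1 : (⟨i, ((ρ i n : ℕ), j)⟩ : Σ i : Fin m, ℕ × Fin (sz i)) =
          ⟨i', ((ρ i' n' : ℕ), j')⟩ := Sum.inr_injective h
      obtain ⟨rfl, h2⟩ := Sigma.mk.inj h1
      have h3 := Prod.mk.inj (eq_of_heq h2)
      obtain ⟨h4, rfl⟩ := h3
      have h5 : n = n' := (ρ i).injective (Subtype.ext h4)
      rw [h5]
  have hgs : Surjective g := by
    intro w
    by_cases hw : w ∈ P
    · refine ⟨Sum.inl (ε ⟨w, hw⟩), ?_⟩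
      show ((ε.symm (ε ⟨w, hw⟩) : P) : Dom d m sz) = _
      rw [Equiv.symm_apply_apply]
    · have h1 : ¬ ∀ i n j, w = Sum.inr ⟨i, (n, j)⟩ → n ∈ B i := hw
      push Not at h1
      obtain ⟨i, n, j, h2, h3⟩ := h1
      refine ⟨Sum.inr ⟨i, ((ρ i).symm ⟨n, h3⟩, j)⟩, ?_⟩
      show (Sum.inr ⟨i, ((ρ i ((ρ i).symm ⟨n, h3⟩) : ℕ), j)⟩ : Dom d m sz) = _
      rw [Equiv.apply_symm_apply, h2]
  let G : Dom (Fintype.card P) m sz ≃ Dom d m sz := Equiv.ofBijective g ⟨hgi, hgs⟩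
  refine ⟨Fintype.card P, m, sz, e.trans G.symm, fun σ i hi v => ?_⟩
  -- the extended permutations
  let σ' : Fin m → Equiv.Perm ℕ := fun i => (σ i).extendDomain (ρ i)
  have h1 : ∀ i n, σ' i (ρ i n) = (ρ i (σ i n) : ℕ) := fun i n =>
    Equiv.Perm.extendDomain_apply_image (σ i) (ρ i) n
  have h2 : ∀ i n, n ∈ B i → σ' i n = n := fun i n hn =>
    Equiv.Perm.extendDomain_apply_not_subtype (σ i) (ρ i) (fun h' => h' hn)
  have hfix : ∀ w ∈ P, act σ' w = w := by
    rintro (b | ⟨i, n, j⟩) hw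
    · rfl
    · show (Sum.inr ⟨i, (σ' i n, j)⟩ : Dom d m sz) = _
      rw [h2 i n (hw i n j rfl)]
  have h3 : ∀ u, act σ' (g u) = g (act σ u) := by
    rintro (a | ⟨i, n, j⟩)
    · exact hfix _ (ε.symm a).2
    · show (Sum.inr ⟨i, (σ' i (ρ i n), j)⟩ : Dom d m sz) = Sum.inr ⟨i, ((ρ i (σ i n) : ℕ), j)⟩
      rw [h1]
  have key : ∀ q : ℕ, (e.trans G.symm).symm (act σ ((e.trans G.symm) q)) =
      e.symm (act σ' (e q)) := by
    intro q
    have h4 := h3 (G.symm (e q))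
    have h5 : g (G.symm (e q)) = e q := G.apply_symm_apply _
    rw [h5] at h4
    rw [h4]
    rfl
  have hpP : e p ∈ P := fun i n j h => ⟨j, h⟩
  have keyp : ∀ q : ℕ, e.symm (act σ' (e q)) = p ↔ q = p := by
    intro q
    rw [Equiv.symm_apply_eq]
    constructor
    · intro h
      have h4 : act σ' (e q) = act σ' (e p) := by rw [h, hfix _ hpP]
      exact e.injective (act_inj σ' h4)
    · rintro rfl
      exact hfix _ hpP
  rcases i with _ | i
  · rw [h0, h0]
    refine decide_eq_decide.2 ?_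
    rw [key]
    exact keyp _
  · rw [hs, hs]
    have h4 := he σ' i (by simpa using hi) v
    rw [← h4]
    congr 1
    funext j
    exact key (v j)

end Pool.Agent.L7h77.UA
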